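import Pool.Agent.R674.Tw.Final

/-!
MP_baa4d7_al (Dade's invariant conjecture).

Notation (definitions in `Pool/Agent/R674/Tw/Defs.lean`, `Pool/Agent/Y63/NV/Defs.lean` and
`Pool/Agent/Y63/KR/Defs.lean`). `G` is a normal subgroup of the finite group `E`, `Ē = E/G`.
* blocks are given by their central characters, homomorphisms `B` from the centre of `F[G]` to the
  algebraically closed field `F` of characteristic `p` (`IsBlock`); `red` is a reduction map from
  the algebraic integers to `F`; `centralValue red χ` is the reduction of the central character of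
  the irreducible complex character `χ`, that is, the block of `χ`;
* `σ` (the problem's `C`) is a chain of nontrivial `p`-subgroups of `G`, given as the set of its
  members; `|σ|` is the number of members; `NG G σ = N_G(C)`; `NEbar G σ ψ = N_Ē(C, ψ)`;
* `kU red G B U σ` is the number of `ψ ∈ Irr(N_G(C))` with `b(ψ)^G = B` and `N_Ē(C, ψ) = U`, that is
  `∑_d k_C(B, d, U)`; `kGe` is the same with `N_Ē(C, ψ) ≥ U`;
* `invSum p G f = ∑_C (-1)^|C| f(C)`, the sum over representatives of the `G`-conjugacy classes of
  all chains of nontrivial `p`-subgroups of `G`, the empty chain included.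
-/

open scoped Classical

namespace Pool.Agent.Results.MP_baa4d7_al.SingularInertialGroups

open Pool.Agent.Y63.NV (IsBlock)
open Pool.Agent.R674.Tw

/-- Let `G` be a normal subgroup of the finite group `E` and let `U` be a cyclic subgroup of
`Ē = E/G` such that `p` divides `|⟨e⟩ ∩ G|` for every `e ∈ E` whose image generates `U`. Then
`∑_C (-1)^|C| #{ψ ∈ Irr(N_G(C)) | b(ψ)^G = B, N_Ē(C, ψ) ≥ U} = 0` for every block `B` of `G`; and if
all subgroups of `Ē` which contain `U` are cyclic (for example if `Ē` is cyclic), then
`∑_C (-1)^|C| ∑_d k_C(B, d, U) = 0`. -/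
theorem result (p : ℕ) [Fact p.Prime] (F : Type) [Field F] [IsAlgClosed F] [CharP F p]
    (red : integralClosure ℤ ℂ →+* F) (E : Type) [Group E] [Finite E] (G : Subgroup E) [G.Normal]
    (B : (G → F) → F) (hB : IsBlock B) (U : Subgroup (E ⧸ G)) (hU : IsCyclic U)
    (hs : ∀ e : E, Subgroup.zpowers (e : E ⧸ G) = U → p ∣ Nat.card ↥(Subgroup.zpowers e ⊓ G)) :
    invSum p G (fun σ => (kGe red G B U σ : ℤ)) = 0 ∧
    ((∀ V : Subgroup (E ⧸ G), U ≤ V → IsCyclic V) →
      invSum p G (fun σ => (kU red G B U σ : ℤ)) = 0) :=
  ⟨sum_ge red G hU hs hB, fun hc => sum_U red G hB U hc hs⟩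

end Pool.Agent.Results.MP_baa4d7_al.SingularInertialGroups
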