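import Pool.Agent.R663.GA.EqL

/-!
MP_baa4d7_al (Dade's invariant conjecture).

`E` is a finite group, `G` a normal subgroup, `B` a `p`-block of `G`. For a chain `σ` of nontrivial
`p`-subgroups of `G` let `E_σ` be its stabiliser in `E` and `G_σ = G ∩ E_σ` that in `G`.

* `IsPChain`, `chainStabilizer` (Pool/Agent/Y63/KR/Defs.lean): chains and their stabilisers.
* `relSum p G f` (Pool/Agent/R663/GA/EqV.lean) is `∑_σ (-1)^|σ| f(E_σ)`, over representatives of the
  `G`-classes of chains of nontrivial `p`-subgroups of `G`, the empty chain included. If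
  `O_p(G) = 1` these are the chains of `p`-subgroups of `G` which begin with `1 = O_p(G)`.
* `Induces red G J B ψ` (same file): `bl(ψ)^G = B` for `ψ ∈ Irr(G ∩ J)`, with the reduced central
  character `centralValue red ψ` of Pool/Agent/Y63/NV/Defs.lean.
* `StableUnder G J e τ ψ` (same file), `J = E_σ`: an element `a` of `E_σ` in the coset `Ge` satisfies
  `ψ(a x a⁻¹) = τ(ψ(x))`. For `τ = 1` this means that `eG ∈ E/G` lies in the subgroup
  `N_{E/G}(σ, ψ)` of the problem file.
* `numInv`, `numInvLE`, `numInvLevel` (same file): the numbers of `ψ ∈ Irr(G_σ)` with `bl(ψ)^G = B`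
  stable under `(eG, τ)`; stable under `eG` and of level at most `a`; stable under `eG` and of
  level `a`. `IsLevelLE` is in Pool/Agent/R615/LV/Lev.lean.
-/

set_option autoImplicit false

namespace Pool.Agent.Results.MP_baa4d7_al.StableGalois

open Pool.Agent.R663.GA

/-- Let `E` be a finite group, `G` a normal subgroup, `B` a `p`-block of `G` (or any function) and
`e ∈ E`.
1. If two automorphisms `τ`, `τ'` of the complex numbers agree on the roots of unity whose order
divides the `p'`-part of `|G|`, then the alternating sums over the `G`-classes of chains `σ` of the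
numbers of the `ψ ∈ Irr(G_σ)` with `bl(ψ)^G = B` stable under `(eG, τ)` and under `(eG, τ')` are
equal.
2. Let the order of `eG` divide `n`, `n` prime to `p`, and `a ≥ 1` (`a ≥ 3` if `p = 2`; `n` prime to
`p - 1` if `a = 1`). The alternating sum of the numbers of the `ψ ∈ Irr(G_σ)` with `bl(ψ)^G = B`,
`eG ∈ N_{E/G}(σ, ψ)` and of `p`-rationality level `a` vanishes.
3. Let the order of `eG` divide `n`, `n` prime to `p`, and `a ≥ 0` (`a ≥ 2` if `p = 2`; `n` prime to
`p - 1` if `a = 0`). The alternating sum of the numbers of the `ψ ∈ Irr(G_σ)` with `bl(ψ)^G = B`,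
`eG ∈ N_{E/G}(σ, ψ)` does not change if only the `ψ` of level at most `a` are counted. -/
theorem result (p : ℕ) [Fact p.Prime] (F : Type) [Field F] [IsAlgClosed F] [CharP F p]
    (red : integralClosure ℤ ℂ →+* F) (E : Type) [Group E] [Finite E] (G : Subgroup E) [G.Normal]
    (B : (G → F) → F) (e : E) :
    (∀ τ τ' : ℂ ≃+* ℂ,
      (∀ z : ℂ, z ^ (Nat.card G / p ^ (Nat.card G).factorization p) = 1 → τ z = τ' z) →
      relSum p G (fun J => (numInv red G J B e τ : ℤ)) =
        relSum p G (fun J => (numInv red G J B e τ' : ℤ))) ∧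
    (∀ a n : ℕ, 1 ≤ a → (p = 2 → 3 ≤ a) → e ^ n ∈ G → n.Coprime p →
      (a = 1 → n.Coprime (p - 1)) →
      relSum p G (fun J => (numInvLevel p a red G J B e : ℤ)) = 0) ∧
    (∀ a n : ℕ, (p = 2 → 2 ≤ a) → e ^ n ∈ G → n.Coprime p →
      (a = 0 → n.Coprime (p - 1)) →
      relSum p G (fun J => (numInvLE p a red G J B e : ℤ)) =
        relSum p G (fun J => (numInv red G J B e (RingEquiv.refl ℂ) : ℤ))) :=
  ⟨fun τ τ' h => rel_congr red B e τ τ' h,
    fun a n h1 h2 h3 h4 h5 => relLevel red B e a n h1 h2 h3 h4 h5,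
    fun a n h1 h2 h3 h4 => relLE red B e a n h1 h2 h3 h4⟩

end Pool.Agent.Results.MP_baa4d7_al.StableGalois
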